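import Pool.Agent.E8helper88.Mul.McM1

/-!
# Flexible Lattès maps: statements of the parts (project LT)

Goal: strong uniform boundedness for flexible Lattès maps in characteristic zero, so that with
`E8helper88.Mul.fin_nt` all non-isotrivial maps are covered.
-/

set_option autoImplicit false

namespace Pool.Agent.E8helper71.LT

open Polynomial
open Pool.Agent.W277.UH Pool.Agent.E8helper88.Mul

universe u v

/-- numerator of `z ↦ (z² - l)² / (4 z (z - 1) (z - l))` -/
noncomputable def pL {K : Type*} [Field K] (l : K) : K[X] := (X ^ 2 - C l) ^ 2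

/-- denominator of `z ↦ (z² - l)² / (4 z (z - 1) (z - l))` -/
noncomputable def qL {K : Type*} [Field K] (l : K) : K[X] := C 4 * X * (X - 1) * (X - C l)

/-- the map `u / w` of degree `d` multiplies the quadratic differential `dz² / (z (z-1) (z-l))`
by `d` -/
def NF {K : Type*} [Field K] (d : ℕ) (l : K) (u w : K[X]) : Prop :=
  (derivative u * w - u * derivative w) ^ 2 * (X * (X - 1) * (X - C l)) =
    C (d : K) * (u * w * (u - w) * (u - C l * w))

/-- CORE (helper71): the Lattès maps of degree 4 -/
def S_CORE : Prop := ∃ N : ℕ → ℕ, ∀ (k : Type v) (L : Type u) [Field k] [CharZero k]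
    [Field L] [Algebra k L] (t : L), Transcendental k t →
    FiniteDimensional (IntermediateField.adjoin k {t}) L →
    ∀ n : ℕ, Module.finrank (IntermediateField.adjoin k {t}) L ≤ n →
    ∀ l : L, Transcendental k l →
    {z : Option L | (Set.range fun j : ℕ => (ratP1 (pL l) (qL l) 4)^[j] z).Finite}.encard ≤
      ((N n : ℕ) : ℕ∞)

/-- NF: normal form of a flexible Lattès map over an extension of degree at most 24. (The
equation `W² V = d V(F)` for quartic forms `V` is linear in `V`, `V` is squarefree, and one
conjugates its roots to `0, 1, l, ∞`.) -/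
def S_NF : Prop := ∀ (L : Type u) [Field L] [CharZero L] (d : ℕ), 2 ≤ d → ∀ p q : L[X],
  IsCoprime p q → max p.natDegree q.natDegree = d →
  LatP d (p.map (algebraMap L (AlgebraicClosure L))) (q.map (algebraMap L (AlgebraicClosure L))) →
  ∃ (M : Type u) (_ : Field M) (_ : Algebra L M), FiniteDimensional L M ∧
    Module.finrank L M ≤ 24 ∧ ∃ (l : M) (u w : M[X]), l ≠ 0 ∧ l ≠ 1 ∧ IsCoprime u w ∧
    max u.natDegree w.natDegree = d ∧ NF d l u w ∧
    ∃ a b c e s : M, a * e - b * c ≠ 0 ∧ s ≠ 0 ∧
    ∑ i ∈ Finset.range (d + 1), C (u.coeff i) * (C a * X + C b) ^ i * (C c * X + C e) ^ (d - i) =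
      C s * (C a * p.map (algebraMap L M) + C b * q.map (algebraMap L M)) ∧
    ∑ i ∈ Finset.range (d + 1), C (w.coeff i) * (C a * X + C b) ^ i * (C c * X + C e) ^ (d - i) =
      C s * (C c * p.map (algebraMap L M) + C e * q.map (algebraMap L M))

/-- TR: if `l` is algebraic over `k` then so are the coefficients of `u`, `w`, up to a common
factor. (For a derivation `D` of `M` over `k` the numerator `U` of `D(u/w)` satisfies
`2 U' Z = U Z'` with `Z = u w (u - w) (u - l w)`, hence `U² = c Z = c W² X (X-1) (X-l) / d` and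
`U = 0`.) -/
def S_TR : Prop := ∀ (k : Type v) (M : Type u) [Field k] [CharZero k] [Field M] [Algebra k M]
  (d : ℕ), 2 ≤ d → ∀ (l : M) (u w : M[X]), l ≠ 0 → l ≠ 1 → IsCoprime u w →
  max u.natDegree w.natDegree = d → NF d l u w → IsAlgebraic k l →
  ∃ s : M, s ≠ 0 ∧ ∀ i, IsAlgebraic k (s * u.coeff i) ∧ IsAlgebraic k (s * w.coeff i)

/-- PREP: the preperiodic points of `f = u / w` are preperiodic points of the Lattès map `g` of
degree 4. (Solutions `h` of `h^* q = c² q` with `h(∞) = ∞` are unique; hence with the group `V`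
of the four maps `z`, `l/z`, `(z-l)/(z-1)`, `l(z-1)/(z-l)` one has `g f τ = g f` for `τ ∈ V` and
`g f g = g g f`; the fibres of `g` are orbits of `V`; so the set of points with a finite
`f`-orbit is stable under `V` and under `g`, and it is finite by uniform boundedness over a fixed
field, `Results.MP_9b502d_nt.AllRationalMaps` or `RationalMapsAllChar`.) -/
def S_PREP : Prop := ∀ (k : Type v) (M : Type u) [Field k] [CharZero k] [Field M] [Algebra k M]
  (t : M), Transcendental k t → FiniteDimensional (IntermediateField.adjoin k {t}) M →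
  ∀ (d : ℕ), 2 ≤ d → ∀ (l : M) (u w : M[X]), Transcendental k l → IsCoprime u w →
  max u.natDegree w.natDegree = d → NF d l u w →
  ∀ z : Option M, (Set.range fun j : ℕ => (ratP1 u w d)^[j] z).Finite →
    (Set.range fun j : ℕ => (ratP1 (pL l) (qL l) 4)^[j] z).Finite

end Pool.Agent.E8helper71.LT
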